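import Mathlib

/-!
# Induced best match subgraphs and least resolved trees of quasi-best match graphs

Rooted phylogenetic trees with leaf set `L` are given by their clusters: a vertex `v` is identified
with the set `L(T(v))` of the leaves below it. The vertices then form a hierarchy (nested or disjoint
sets, containing `L` and the singletons), the root is `L`, the leaves are the singletons, `v ≼ u` is
inclusion and `lca x y` is the least cluster that contains `x` and `y`.
-/

set_option autoImplicit false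
set_option linter.unusedSectionVars false

namespace Pool.Agent.Results.MP_5c2e51_co.DisplayedByAll

open Finset

variable {V S : Type} [DecidableEq V]

/-- A rooted phylogenetic tree with leaf set `L`, given by the set of its clusters. -/
@[ext] structure Tree (L : Finset V) where
  /-- the vertices, as sets of leaves -/
  cl : Finset (Finset V)
  sub : ∀ C ∈ cl, C ⊆ L
  ne : ∀ C ∈ cl, C.Nonempty
  top : L ∈ cl
  single : ∀ x ∈ L, {x} ∈ cl
  nested : ∀ C ∈ cl, ∀ D ∈ cl, C ⊆ D ∨ D ⊆ C ∨ Disjoint C D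

/-- The last common ancestor of two leaves: the least cluster that contains both
(see `lca_mem`, `lca_le`). -/
noncomputable def Tree.lca {L : Finset V} (T : Tree L) (x y : V) : Finset V := by
  classical
  exact L.filter fun z => ∀ C ∈ T.cl, x ∈ C → y ∈ C → z ∈ C

/-- `u` is a truncation map: for each leaf `x` and each color `s ≠ σ x` the vertex `u x s` is an
ancestor of (or equal to) `x`. -/
def IsTruncation {L : Finset V} (T : Tree L) (σ : V → S) (u : V → S → Finset V) : Prop :=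
  ∀ x ∈ L, ∀ s, s ≠ σ x → u x s ∈ T.cl ∧ x ∈ u x s

/-- The arcs of `qBMG(T, σ, u)`. -/
def Arc {L : Finset V} (T : Tree L) (σ : V → S) (u : V → S → Finset V) (x y : V) : Prop :=
  σ x ≠ σ y ∧ (¬ ∃ y' ∈ L, σ y' = σ y ∧ T.lca x y' ⊂ T.lca x y) ∧ T.lca x y ⊆ u x (σ y)

/-- `(T, σ, u)` explains the subgraph of the digraph `G` induced by `L`. -/
def Explains {L : Finset V} (T : Tree L) (σ : V → S) (u : V → S → Finset V)
    (G : V → V → Prop) : Prop :=
  IsTruncation T σ u ∧ ∀ x ∈ L, ∀ y ∈ L, G x y ↔ Arc T σ u x y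

/-- The constant truncation map with value the root. -/
def rootMap (L : Finset V) : V → S → Finset V := fun _ _ => L

/-- The subgraph of `(G, σ)` induced by `L` is a BMG. -/
def IsBMG (L : Finset V) (σ : V → S) (G : V → V → Prop) : Prop :=
  ∃ T : Tree L, Explains T σ (rootMap L) G

/-- The restriction of a tree to a set `W` of leaves has the clusters `C ∩ W`; the tree `T` displays
`T'` if `T'` arises from the restriction to its leaf set by contracting inner edges, that is, by
omitting clusters. -/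
def Tree.Displays {L W : Finset V} (T : Tree L) (T' : Tree W) : Prop :=
  W ⊆ L ∧ ∀ C ∈ T'.cl, ∃ D ∈ T.cl, C = D ∩ W

/-- `T` is a least resolved tree of the qBMG `(G, σ)[L]`. -/
def IsLRT {L : Finset V} (T : Tree L) (σ : V → S) (G : V → V → Prop) : Prop :=
  (∃ u, Explains T σ u G) ∧
    ∀ T' : Tree L, T.Displays T' → T' ≠ T → ¬ ∃ u, Explains T' σ u G

/-- `T` is a least resolved tree of the BMG `(G, σ)[L]` (truncation maps at the root). -/
def IsBMGLRT {L : Finset V} (T : Tree L) (σ : V → S) (G : V → V → Prop) : Prop :=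
  Explains T σ (rootMap L) G ∧
    ∀ T' : Tree L, T.Displays T' → T' ≠ T → ¬ Explains T' σ (rootMap L) G

section basics
variable {L : Finset V} (T : Tree L)

theorem comparable {C D : Finset V} (hC : C ∈ T.cl) (hD : D ∈ T.cl) {x : V} (h1 : x ∈ C)
    (h2 : x ∈ D) : C ⊆ D ∨ D ⊆ C := by
  rcases T.nested C hC D hD with h | h | h
  · exact Or.inl h
  · exact Or.inr h
  · exact absurd h2 (Finset.disjoint_left.1 h h1)

theorem mem_lca {x y z : V} :
    z ∈ T.lca x y ↔ z ∈ L ∧ ∀ C ∈ T.cl, x ∈ C → y ∈ C → z ∈ C := by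
  classical
  unfold Tree.lca
  rw [Finset.mem_filter]

theorem lca_le {x y : V} {C : Finset V} (hC : C ∈ T.cl) (hx : x ∈ C) (hy : y ∈ C) :
    T.lca x y ⊆ C := fun _ hz => ((mem_lca T).1 hz).2 C hC hx hy

theorem left_mem_lca {x y : V} (hx : x ∈ L) : x ∈ T.lca x y :=
  (mem_lca T).2 ⟨hx, fun _ _ h _ => h⟩

theorem right_mem_lca {x y : V} (hy : y ∈ L) : y ∈ T.lca x y :=
  (mem_lca T).2 ⟨hy, fun _ _ _ h => h⟩

/-- among the clusters with a property that contain `x` there is a least one -/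
theorem exists_least (x : V) (P : Finset V → Prop) (h : ∃ C ∈ T.cl, x ∈ C ∧ P C) :
    ∃ C ∈ T.cl, x ∈ C ∧ P C ∧ ∀ D ∈ T.cl, x ∈ D → P D → C ⊆ D := by
  classical
  obtain ⟨C0, hC0, hx0, hP0⟩ := h
  obtain ⟨C, hC, hmin⟩ := (T.cl.filter fun C => x ∈ C ∧ P C).exists_min_image Finset.card
    ⟨C0, Finset.mem_filter.2 ⟨hC0, hx0, hP0⟩⟩
  rw [Finset.mem_filter] at hC
  refine ⟨C, hC.1, hC.2.1, hC.2.2, fun D hD hxD hPD => ?_⟩
  rcases comparable T hC.1 hD hC.2.1 hxD with h | h
  · exact h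
  · have h1 := hmin D (Finset.mem_filter.2 ⟨hD, hxD, hPD⟩)
    rw [Finset.eq_of_subset_of_card_le h h1]

theorem lca_mem {x y : V} (hx : x ∈ L) (hy : y ∈ L) : T.lca x y ∈ T.cl := by
  obtain ⟨C, hC, hxC, hyC, hle⟩ := exists_least T x (fun C => y ∈ C) ⟨L, T.top, hx, hy⟩
  have h : T.lca x y = C := by
    apply Finset.Subset.antisymm (lca_le T hC hxC hyC)
    intro z hz
    exact (mem_lca T).2 ⟨T.sub C hC hz, fun D hD h1 h2 => hle D hD h1 h2 hz⟩
  rwa [h]

end basics

/-- `y` is a best match of `x` in the tree `T`: every cluster that contains `x` and a leaf of the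
color of `y` contains `y` -/
def Best {L : Finset V} (T : Tree L) (σ : V → S) (x y : V) : Prop :=
  ∀ C ∈ T.cl, x ∈ C → (∃ y' ∈ C, σ y' = σ y) → y ∈ C

theorem best_iff {L : Finset V} (T : Tree L) (σ : V → S) {x y : V} (hx : x ∈ L) (hy : y ∈ L) :
    Best T σ x y ↔ ¬ ∃ y' ∈ L, σ y' = σ y ∧ T.lca x y' ⊂ T.lca x y := by
  constructor
  · rintro h ⟨y', hy', hc, hlt⟩
    have h1 : y ∈ T.lca x y' :=
      h _ (lca_mem T hx hy') (left_mem_lca T hx) ⟨y', right_mem_lca T hy', hc⟩
    exact hlt.2 (lca_le T (lca_mem T hx hy') (left_mem_lca T hx) h1)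
  · intro h C hC hxC hex
    obtain ⟨y', hy'C, hc⟩ := hex
    by_contra hyC
    have hy' : y' ∈ L := T.sub C hC hy'C
    refine h ⟨y', hy', hc, ?_⟩
    have hle : T.lca x y' ⊆ C := lca_le T hC hxC hy'C
    rcases comparable T (lca_mem T hx hy') (lca_mem T hx hy) (left_mem_lca T hx)
      (left_mem_lca T hx) with h1 | h1
    · exact ⟨h1, fun h2 => hyC (hle (h2 (right_mem_lca T hy)))⟩
    · exact absurd (hle (h1 (right_mem_lca T hy))) hyC

/-- explanation with the root as truncation -/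
theorem explains_root {L : Finset V} (T : Tree L) (σ : V → S) (G : V → V → Prop) :
    Explains T σ (rootMap L) G ↔
      ∀ x ∈ L, ∀ y ∈ L, (G x y ↔ σ x ≠ σ y ∧ Best T σ x y) := by
  constructor
  · rintro ⟨-, h⟩ x hx y hy
    rw [h x hx y hy, best_iff T σ hx hy]
    exact ⟨fun h1 => ⟨h1.1, h1.2.1⟩, fun h1 => ⟨h1.1, h1.2, T.sub _ (lca_mem T hx hy)⟩⟩
  · intro h
    refine ⟨fun x hx s _ => ⟨T.top, hx⟩, fun x hx y hy => ?_⟩
    rw [h x hx y hy, best_iff T σ hx hy]
    exact ⟨fun h1 => ⟨h1.1, h1.2, T.sub _ (lca_mem T hx hy)⟩, fun h1 => ⟨h1.1, h1.2.1⟩⟩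

/-- every leaf has a best match of every color that occurs -/
theorem exists_best {L : Finset V} (T : Tree L) (σ : V → S) {x y : V} (hx : x ∈ L) (hy : y ∈ L) :
    ∃ n ∈ L, σ n = σ y ∧ Best T σ x n := by
  obtain ⟨C, hC, hxC, ⟨n, hn, hc⟩, hle⟩ := exists_least T x (fun C => ∃ n ∈ C, σ n = σ y)
    ⟨L, T.top, hx, y, hy, rfl⟩
  refine ⟨n, T.sub C hC hn, hc, fun D hD hxD hex => ?_⟩
  rw [hc] at hex
  exact hle D hD hxD hex hn

/-- the set of leaves `D` contains `x` and leaves of color `s`, all of them out-neighbors of `x` -/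
def Good (σ : V → S) (G : V → V → Prop) (x : V) (s : S) (D : Finset V) : Prop :=
  x ∈ D ∧ (∃ y ∈ D, σ y = s) ∧ ∀ z ∈ D, σ z = s → G x z

/-- The crucial step: passing from a cluster of one tree to the least cluster of another tree that
contains it does not add leaves of color `s`. -/
theorem step {L : Finset V} {T T' : Tree L} {σ : V → S} {G : V → V → Prop}
    (hT : ∀ x ∈ L, ∀ y ∈ L, (G x y ↔ σ x ≠ σ y ∧ Best T σ x y))
    (hT' : ∀ x ∈ L, ∀ y ∈ L, (G x y ↔ σ x ≠ σ y ∧ Best T' σ x y)) {x : V} {s : S}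
    {D D' : Finset V} (hD : D ∈ T.cl) (hg : Good σ G x s D) (hs : s ≠ σ x)
    (hD' : D' ∈ T'.cl) (hle : D ⊆ D') (hmin : ∀ C ∈ T'.cl, D ⊆ C → D' ⊆ C) :
    Good σ G x s D' := by
  classical
  obtain ⟨hxD, ⟨y0, hy0, hc0⟩, hout⟩ := hg
  have hxL : x ∈ L := T.sub D hD hxD
  have hy0L : y0 ∈ L := T.sub D hD hy0
  refine ⟨hle hxD, ⟨y0, hle hy0, hc0⟩, fun z hz hcz => ?_⟩
  have hzL : z ∈ L := T'.sub D' hD' hz
  by_contra hG
  have h1 : ¬ Best T' σ x z := fun h => hG ((hT' x hxL z hzL).2 ⟨by rw [hcz]; exact hs.symm, h⟩)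
  unfold Best at h1
  push Not at h1
  obtain ⟨C0, hC0, hxC0, hex, hzC0⟩ := h1
  rw [hcz] at hex
  have hC0D' : C0 ⊆ D' := by
    rcases comparable T' hC0 hD' hxC0 (hle hxD) with h | h
    · exact h
    · exact absurd (h hz) hzC0
  -- the largest cluster of `T'` properly contained in `D'` with `x` as a member
  obtain ⟨C, hC, hmax⟩ := (T'.cl.filter fun C => x ∈ C ∧ C ⊂ D').exists_max_image Finset.card
    ⟨C0, Finset.mem_filter.2 ⟨hC0, hxC0, hC0D', fun h => hzC0 (h hz)⟩⟩
  rw [Finset.mem_filter] at hC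
  obtain ⟨hCcl, hxC, hCD'⟩ := hC
  have hmax' : ∀ E ∈ T'.cl, x ∈ E → E ⊂ D' → C ⊆ E → E = C := by
    intro E hE hxE hED' hCE
    exact (Finset.eq_of_subset_of_card_le hCE
      (hmax E (Finset.mem_filter.2 ⟨hE, hxE, hED'⟩))).symm
  have hC0C : C0 ⊆ C := by
    rcases comparable T' hC0 hCcl hxC0 hxC with h | h
    · exact h
    · rw [hmax' C0 hC0 hxC0 ⟨hC0D', fun h' => hzC0 (h' hz)⟩ h]
  -- the out-neighbors of `x` of color `s` lie in `C`
  have hNC : ∀ n ∈ L, σ n = s → G x n → n ∈ C := by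
    intro n hn hcn hGn
    have h2 := ((hT' x hxL n hn).1 hGn).2
    exact hC0C (h2 C0 hC0 hxC0 (by rw [hcn]; exact hex))
  have hDC : ¬ D ⊆ C := fun h => hCD'.2 (hmin C hCcl h)
  obtain ⟨y, hyD, hyC⟩ := Finset.not_subset.1 hDC
  have hyL : y ∈ L := T.sub D hD hyD
  by_cases hcy : σ y = s
  · exact hyC (hNC y hyL hcy (hout y hyD hcy))
  -- a best match `n` of `y` of color `s`
  obtain ⟨n, hn, hcn, hbn⟩ := exists_best T' σ hyL hy0L
  rw [hc0] at hcn
  have hGyn : G y n := (hT' y hyL n hn).2 ⟨by rw [hcn]; exact hcy, hbn⟩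
  have hnD : n ∈ D := ((hT y hyL n hn).1 hGyn).2 D hD hyD ⟨y0, hy0, by rw [hc0, hcn]⟩
  have hnC : n ∈ C := hNC n hn hcn (hout n hnD hcn)
  -- then `z` is an out-neighbor of `y`
  have hGyz : G y z := by
    refine (hT' y hyL z hzL).2 ⟨by rw [hcz]; exact hcy, fun E hE hyE hexE => ?_⟩
    have hnE : n ∈ E := hbn E hE hyE (by
      obtain ⟨w, hw, hcw⟩ := hexE
      exact ⟨w, hw, by rw [hcw, hcz, hcn]⟩)
    have hCE : C ⊆ E := by
      rcases comparable T' hCcl hE hnC hnE with h | h
      · exact h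
      · exact absurd (h hyE) hyC
    rcases comparable T' hE hD' hyE (hle hyD) with h | h
    · by_cases h3 : D' ⊆ E
      · exact h3 hz
      · have h4 := hmax' E hE (hCE hxC) ⟨h, h3⟩ hCE
        rw [h4] at hyE
        exact absurd hyE hyC
    · exact h hz
  have hzD : z ∈ D := ((hT y hyL z hzL).1 hGyz).2 D hD hyD ⟨y0, hy0, by rw [hc0, hcz]⟩
  exact hG (hout z hzD hcz)

/-- the tree of the common clusters of two trees -/
def common {L : Finset V} (T T' : Tree L) : Tree L where
  cl := T.cl ∩ T'.cl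
  sub C hC := T.sub C (Finset.mem_inter.1 hC).1
  ne C hC := T.ne C (Finset.mem_inter.1 hC).1
  top := Finset.mem_inter.2 ⟨T.top, T'.top⟩
  single x hx := Finset.mem_inter.2 ⟨T.single x hx, T'.single x hx⟩
  nested C hC D hD := T.nested C (Finset.mem_inter.1 hC).1 D (Finset.mem_inter.1 hD).1

theorem common_explains {L : Finset V} {T T' : Tree L} {σ : V → S} {G : V → V → Prop}
    (hT : Explains T σ (rootMap L) G) (hT' : Explains T' σ (rootMap L) G) :
    Explains (common T T') σ (rootMap L) G := by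
  classical
  rw [explains_root] at hT hT' ⊢
  intro x hx y hy
  constructor
  · intro h
    obtain ⟨h1, h2⟩ := (hT x hx y hy).1 h
    exact ⟨h1, fun C hC => h2 C (Finset.mem_inter.1 hC).1⟩
  · rintro ⟨hne, hb⟩
    -- the good clusters of `T`
    obtain ⟨C0, hC0, hx0, hex0, hmin0⟩ := exists_least T x (fun C => ∃ n ∈ C, σ n = σ y)
      ⟨L, T.top, hx, y, hy, rfl⟩
    have hg0 : Good σ G x (σ y) C0 := by
      refine ⟨hx0, hex0, fun z hz hcz => ?_⟩
      refine (hT x hx z (T.sub C0 hC0 hz)).2 ⟨by rw [hcz]; exact hne, fun D hD hxD hexD => ?_⟩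
      rw [hcz] at hexD
      exact hmin0 D hD hxD hexD hz
    obtain ⟨D, hD, hmax⟩ := (T.cl.filter fun C => Good σ G x (σ y) C).exists_max_image Finset.card
      ⟨C0, Finset.mem_filter.2 ⟨hC0, hg0⟩⟩
    rw [Finset.mem_filter] at hD
    obtain ⟨hDcl, hDg⟩ := hD
    -- the least cluster of `T'` that contains `D`
    obtain ⟨D', hD', -, hDD', hmin'⟩ := exists_least T' x (fun C => D ⊆ C)
      ⟨L, T'.top, hx, T.sub D hDcl⟩
    have hD'g : Good σ G x (σ y) D' := step hT hT' hDcl hDg hne.symm hD' hDD'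
      (fun C hC h => hmin' C hC (h hDg.1) h)
    -- the least cluster of `T` that contains `D'`
    obtain ⟨D'', hD'', -, hDD'', hmin''⟩ := exists_least T x (fun C => D' ⊆ C)
      ⟨L, T.top, hx, T'.sub D' hD'⟩
    have hD''g : Good σ G x (σ y) D'' := step hT' hT hD' hD'g hne.symm hD'' hDD''
      (fun C hC h => hmin'' C hC (h hD'g.1) h)
    have h1 : D = D'' := Finset.eq_of_subset_of_card_le (hDD'.trans hDD'')
      (hmax D'' (Finset.mem_filter.2 ⟨hD'', hD''g⟩))
    have h2 : D = D' := Finset.Subset.antisymm hDD' (by rw [h1]; exact hDD'')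
    have h3 : y ∈ D := hb D (Finset.mem_inter.2 ⟨hDcl, by rw [h2]; exact hD'⟩) hDg.1 hDg.2.1
    exact hDg.2.2 y h3 rfl

/-- the restriction of a tree to a nonempty set of leaves -/
def restrict {L : Finset V} (T : Tree L) (W : Finset V) (hW : W ⊆ L) (h0 : W.Nonempty) :
    Tree W where
  cl := (T.cl.image fun C => C ∩ W).filter fun C => C.Nonempty
  sub C hC := by
    rw [Finset.mem_filter, Finset.mem_image] at hC
    obtain ⟨⟨D, -, rfl⟩, -⟩ := hC
    exact Finset.inter_subset_right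
  ne C hC := (Finset.mem_filter.1 hC).2
  top := by
    rw [Finset.mem_filter, Finset.mem_image]
    exact ⟨⟨L, T.top, Finset.inter_eq_right.2 hW⟩, h0⟩
  single x hx := by
    rw [Finset.mem_filter, Finset.mem_image]
    exact ⟨⟨{x}, T.single x (hW hx), Finset.inter_eq_left.2 (Finset.singleton_subset_iff.2 hx)⟩,
      Finset.singleton_nonempty x⟩
  nested C hC D hD := by
    rw [Finset.mem_filter, Finset.mem_image] at hC hD
    obtain ⟨⟨C, hC, rfl⟩, -⟩ := hC
    obtain ⟨⟨D, hD, rfl⟩, -⟩ := hD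
    rcases T.nested C hC D hD with h | h | h
    · exact Or.inl (Finset.inter_subset_inter_right h)
    · exact Or.inr (Or.inl (Finset.inter_subset_inter_right h))
    · exact Or.inr (Or.inr (h.mono Finset.inter_subset_left Finset.inter_subset_left))

/-- If a tree explains `(G, σ)` with some truncation map and `(G, σ)[W]` is a BMG, then the
restriction to `W` explains `(G, σ)[W]` without truncation. -/
theorem restrict_explains {L W : Finset V} {T : Tree L} {σ : V → S} {G : V → V → Prop}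
    {u : V → S → Finset V} (hT : Explains T σ u G) (hW : W ⊆ L) (h0 : W.Nonempty)
    (hB : IsBMG W σ G) : Explains (restrict T W hW h0) σ (rootMap W) G := by
  classical
  obtain ⟨T1, hT1⟩ := hB
  rw [explains_root] at hT1 ⊢
  intro x hx y hy
  have hmemR : ∀ C, C ∈ (restrict T W hW h0).cl ↔ (∃ D ∈ T.cl, D ∩ W = C) ∧ C.Nonempty := by
    intro C
    change C ∈ (T.cl.image fun C => C ∩ W).filter (fun C => C.Nonempty) ↔ _
    rw [Finset.mem_filter, Finset.mem_image]
  constructor
  · intro h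
    obtain ⟨h1, h2, -⟩ := (hT.2 x (hW hx) y (hW hy)).1 h
    rw [← best_iff T σ (hW hx) (hW hy)] at h2
    refine ⟨h1, fun C hC hxC hex => ?_⟩
    obtain ⟨⟨D, hD, rfl⟩, -⟩ := (hmemR C).1 hC
    obtain ⟨y', hy', hc⟩ := hex
    exact Finset.mem_inter.2 ⟨h2 D hD (Finset.mem_inter.1 hxC).1
      ⟨y', (Finset.mem_inter.1 hy').1, hc⟩, hy⟩
  · rintro ⟨hne, hb⟩
    obtain ⟨n, hn, hcn, hbn⟩ := exists_best T1 σ hx hy
    have hGn : G x n := (hT1 x hx n hn).2 ⟨by rw [hcn]; exact hne, hbn⟩
    obtain ⟨-, h2, h3⟩ := (hT.2 x (hW hx) n (hW hn)).1 hGn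
    have hC : T.lca x n ∈ T.cl := lca_mem T (hW hx) (hW hn)
    have hyC : y ∈ T.lca x n := by
      have hxl : x ∈ T.lca x n ∩ W := Finset.mem_inter.2 ⟨left_mem_lca T (hW hx), hx⟩
      have := hb (T.lca x n ∩ W) ((hmemR _).2 ⟨⟨_, hC, rfl⟩, x, hxl⟩) hxl
        ⟨n, Finset.mem_inter.2 ⟨right_mem_lca T (hW hn), hn⟩, hcn⟩
      exact (Finset.mem_inter.1 this).1
    have hle : T.lca x y ⊆ T.lca x n := lca_le T hC (left_mem_lca T (hW hx)) hyC
    refine (hT.2 x (hW hx) y (hW hy)).2 ⟨hne, ?_, ?_⟩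
    · rintro ⟨y', hy', hc, hlt⟩
      exact h2 ⟨y', hy', hc.trans hcn.symm, hlt.trans_subset hle⟩
    · rw [← hcn]
      exact hle.trans h3

theorem displays_of_subset {L : Finset V} {T T' : Tree L} (h : T'.cl ⊆ T.cl) : T.Displays T' :=
  ⟨Finset.Subset.refl L, fun C hC => ⟨C, h hC, (Finset.inter_eq_left.2 (T'.sub C hC)).symm⟩⟩

theorem subset_of_displays {L : Finset V} {T T' : Tree L} (h : T.Displays T') : T'.cl ⊆ T.cl := by
  intro C hC
  obtain ⟨D, hD, rfl⟩ := h.2 C hC
  rwa [Finset.inter_eq_left.2 (T.sub D hD)]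

/-- a least resolved tree of a BMG is contained in every tree that explains it -/
theorem lrt_subset {L : Finset V} {T T' : Tree L} {σ : V → S} {G : V → V → Prop}
    (hT : IsBMGLRT T σ G) (hT' : Explains T' σ (rootMap L) G) : T.cl ⊆ T'.cl := by
  by_contra hcon
  have h1 : common T T' ≠ T := by
    intro h
    apply hcon
    intro C hC
    rw [← h] at hC
    exact (Finset.mem_inter.1 hC).2
  exact hT.2 (common T T') (displays_of_subset Finset.inter_subset_left) h1
    (common_explains hT.1 hT')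

theorem exists_lrt {L : Finset V} {σ : V → S} {G : V → V → Prop} (h : IsBMG L σ G) :
    ∃ T : Tree L, IsBMGLRT T σ G := by
  classical
  have key : ∀ (k : ℕ) (T : Tree L), T.cl.card = k → Explains T σ (rootMap L) G →
      ∃ T : Tree L, IsBMGLRT T σ G := by
    intro k
    induction k using Nat.strong_induction_on with
    | _ k ih =>
      intro T hk hT
      by_cases hl : ∀ T' : Tree L, T.Displays T' → T' ≠ T → ¬ Explains T' σ (rootMap L) G
      · exact ⟨T, hT, hl⟩
      · push Not at hl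
        obtain ⟨T', h1, h2, h3⟩ := hl
        have h4 := subset_of_displays h1
        have h5 : T'.cl ≠ T.cl := fun h => h2 (Tree.ext h)
        have h6 : T'.cl.card < k := by
          rw [← hk]
          exact Finset.card_lt_card (Finset.ssubset_iff_subset_ne.2 ⟨h4, h5⟩)
        exact ih _ h6 T' rfl h3
  obtain ⟨T, hT⟩ := h
  exact key _ T rfl hT

/-- **Main result.** Let `(G, σ)` be a vertex-colored digraph on a finite set, and let `W` be a set of
vertices (maximal or not) such that the induced subgraph `(G, σ)[W]` is a best match graph. It has a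
unique least resolved tree, and this tree is displayed by every tree that explains `(G, σ)` with some
truncation map, in particular by every least resolved tree of the qBMG `(G, σ)`. -/
theorem result {V S : Type} [Fintype V] [DecidableEq V] (σ : V → S) (G : V → V → Prop)
    (W : Finset V) (hW : IsBMG W σ G) :
    (∃! TW : Tree W, IsBMGLRT TW σ G) ∧
    (∀ T : Tree (Finset.univ : Finset V), (∃ u, Explains T σ u G) →
      ∀ TW : Tree W, IsBMGLRT TW σ G → T.Displays TW) ∧
    (∀ T : Tree (Finset.univ : Finset V), IsLRT T σ G →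
      ∀ TW : Tree W, IsBMGLRT TW σ G → T.Displays TW) := by
  have main : ∀ T : Tree (Finset.univ : Finset V), (∃ u, Explains T σ u G) →
      ∀ TW : Tree W, IsBMGLRT TW σ G → T.Displays TW := by
    rintro T ⟨u, hu⟩ TW hTW
    have h0 : W.Nonempty := TW.ne W TW.top
    have h1 := restrict_explains hu (Finset.subset_univ W) h0 hW
    refine ⟨Finset.subset_univ W, fun C hC => ?_⟩
    have h2 := lrt_subset hTW h1 hC
    change C ∈ (T.cl.image fun C => C ∩ W).filter (fun C => C.Nonempty) at h2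
    rw [Finset.mem_filter, Finset.mem_image] at h2
    obtain ⟨⟨D, hD, hDC⟩, -⟩ := h2
    exact ⟨D, hD, hDC.symm⟩
  refine ⟨?_, main, fun T hT => main T hT.1⟩
  obtain ⟨T, hT⟩ := exists_lrt hW
  refine ⟨T, hT, fun T' hT' => ?_⟩
  exact Tree.ext (Finset.Subset.antisymm (lrt_subset hT' hT.1) (lrt_subset hT hT'.1))

end Pool.Agent.Results.MP_5c2e51_co.DisplayedByAll
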